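import Pool.Agent.W564.MY.Fin7

/-!
# Semiclassical mean-field limit of the Levy-Lieb functional (full positive answer, all `d ≥ 1`)

Fix `d ≥ 1`. Let `V, w ∈ Lᵖ + L^q` with `p, q ∈ [1 + d/2, ∞)`, let
`w(x) = ∫₀^∞ (χ_r * χ_r)(x) dr` for a (jointly measurable) family of even functions `χ_r ≥ 0`,
let `f ≥ 0` with `√f ∈ H¹(ℝᵈ)` and `∫ f = 1`, and let `h_N N^{1/d} → 1`, `λ_N N → 1`. Then

  `𝓔_N(f) → 𝓔^TF(f) = K_cl ∫ f^{1+2/d} + ∫ V f + ½ ∬ f(x) f(y) w(x - y) dx dy`.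

With `V = w = 0` this is the ideal gas limit `𝓚_N(f) → K_cl ∫ f^{1+2/d}` (the asymptotic
March-Young bound), in every dimension.

The upper bound: the density `f` is transported to the unit cube by a Knothe-Rosenblatt map of a
slightly smoothed density; the cube is decomposed in small overlapping cells with
smooth orthogonal windows times plane waves, the momenta being chosen in the ellipsoids adapted to
the Jacobian of the transport in the cell; this gives `N` orthonormal orbitals with density exactly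
`N f` and kinetic energy `≤ N^{1+2/d} (K_cl ∫ f^{1+2/d} + ε)`. The lower bound uses coherent states
for the kinetic energy and the positive definiteness of `w` for the interaction.
-/

set_option autoImplicit false

noncomputable section

namespace Pool.Agent.Results.MP_2a55aa_mp.LevyLiebThomasFermiLimit

open MeasureTheory Filter Topology
open scoped ENNReal

/-- `ℝᵈ`, with Lebesgue measure -/
abbrev Rd (d : ℕ) : Type := Fin d → ℝ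

/-- `g` is the weak derivative of `u` in the direction `v`:
`∫ u ∂_v φ = - ∫ g φ` for all test functions `φ` -/
def WeakDeriv {X : Type} [NormedAddCommGroup X] [NormedSpace ℝ X] [MeasureSpace X] (v : X)
    (u g : X → ℂ) : Prop :=
  ∀ φ : X → ℂ, ContDiff ℝ ((⊤ : ℕ∞) : WithTop ℕ∞) φ → HasCompactSupport φ →
    ∫ x, u x * fderiv ℝ φ x v = -∫ x, g x * φ x

/-- `u ∈ H¹(ℝᵈ)` -/
def InH1 {d : ℕ} (u : Rd d → ℂ) : Prop :=
  ∃ g : Fin d → Rd d → ℂ, MemLp u 2 ∧ (∀ i, MemLp (g i) 2) ∧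
    ∀ i, WeakDeriv (Pi.single i (1 : ℝ)) u (g i)

/-- `V ∈ Lᵖ(ℝᵈ) + L^q(ℝᵈ)` for some `p, q ∈ [a, ∞)` -/
def InLpSum {d : ℕ} (a : ℝ) (V : Rd d → ℝ) : Prop :=
  ∃ p q : ℝ, a ≤ p ∧ a ≤ q ∧ ∃ V₁ V₂ : Rd d → ℝ, MemLp V₁ (ENNReal.ofReal p) ∧
    MemLp V₂ (ENNReal.ofReal q) ∧ ∀ᵐ x, V x = V₁ x + V₂ x

/-- `Ψ ∈ S_N`: an antisymmetric, `L²`-normalised function on `(ℝᵈ)^N` of finite kinetic energy;
`G i c` is the weak derivative in the coordinate `c` of the particle `i` -/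
structure IsState {N d : ℕ} (Ψ : (Fin N → Rd d) → ℂ)
    (G : Fin N → Fin d → (Fin N → Rd d) → ℂ) : Prop where
  memLp : MemLp Ψ 2
  gradMemLp : ∀ i c, MemLp (G i c) 2
  grad : ∀ i c, WeakDeriv (Pi.single i (Pi.single c (1 : ℝ))) Ψ (G i c)
  antisymm : ∀ i j : Fin N, i ≠ j → ∀ᵐ x : Fin N → Rd d, Ψ (x ∘ Equiv.swap i j) = -Ψ x
  normalised : ∫ x, ‖Ψ x‖ ^ 2 = 1

/-- `ρ` is the density of `Ψ`:
`ρ(x) = N ∫ |Ψ(x, x₂, …, x_N)|² dx₂ … dx_N` for almost every `x` (here `N = n + 1`) -/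
def IsDensityOf {d : ℕ} : (N : ℕ) → ((Fin N → Rd d) → ℂ) → (Rd d → ℝ) → Prop
  | 0, _, ρ => ∀ᵐ x, ρ x = 0
  | (n + 1), Ψ, ρ => ∀ᵐ x : Rd d, ENNReal.ofReal (ρ x) =
      ((n + 1 : ℕ) : ℝ≥0∞) * ∫⁻ y : Fin n → Rd d, ENNReal.ofReal (‖Ψ (Fin.cons x y)‖ ^ 2)

/-- the interaction `⟨Ψ, ∑_{i<j} w(xᵢ - xⱼ) Ψ⟩ ∈ [0, ∞]`, for `w ≥ 0` -/
def interaction {N d : ℕ} (w : Rd d → ℝ) (Ψ : (Fin N → Rd d) → ℂ) : ℝ≥0∞ :=
  ∑ i : Fin N, ∑ j : Fin N, if i < j then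
    ∫⁻ x : Fin N → Rd d, ENNReal.ofReal (w (x i - x j)) * ENNReal.ofReal (‖Ψ x‖ ^ 2) else 0

/-- the energy per particle `N⁻¹ ⟨Ψ, H_N Ψ⟩`, where
`H_N = ∑ᵢ (-h² Δ_{xᵢ} + V(xᵢ)) + λ ∑_{i<j} w(xᵢ - xⱼ)` -/
def energyPerParticle {N d : ℕ} (h lam : ℝ) (V w : Rd d → ℝ) (Ψ : (Fin N → Rd d) → ℂ)
    (G : Fin N → Fin d → (Fin N → Rd d) → ℂ) : EReal :=
  (((N : ℝ)⁻¹ * (h ^ 2 * (∑ i, ∑ c, ∫ x, ‖G i c x‖ ^ 2) +
    ∑ i, ∫ x : Fin N → Rd d, V (x i) * ‖Ψ x‖ ^ 2) : ℝ) : EReal) +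
  (((N : ℝ)⁻¹ * lam : ℝ) : EReal) * (interaction w Ψ : EReal)

/-- the Levy-Lieb functional `𝓔_N(f) = inf {N⁻¹ ⟨Ψ, H_N Ψ⟩ : Ψ ∈ S_N, ρ_Ψ = N f}` -/
def levyLieb (d N : ℕ) (h lam : ℝ) (V w f : Rd d → ℝ) : EReal :=
  ⨅ (Ψ : (Fin N → Rd d) → ℂ) (G : Fin N → Fin d → (Fin N → Rd d) → ℂ) (_ : IsState Ψ G)
    (_ : IsDensityOf N Ψ (fun x => N * f x)), energyPerParticle h lam V w Ψ G

/-- the volume of the Euclidean unit ball -/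
def unitBallVolume (d : ℕ) : ℝ := (volume {x : Rd d | ∑ i, x i ^ 2 < 1}).toReal

/-- `K_cl = 4π² d / (d + 2) · |B₁|^{-2/d}` -/
def Kclassical (d : ℕ) : ℝ := 4 * Real.pi ^ 2 * d / (d + 2) * unitBallVolume d ^ (-(2 : ℝ) / d)

/-- the Thomas-Fermi functional -/
def thomasFermi (d : ℕ) (V w f : Rd d → ℝ) : ℝ :=
  Kclassical d * (∫ x, f x ^ (1 + 2 / (d : ℝ))) + (∫ x, V x * f x) +
    1 / 2 * ∫ x, ∫ y, f x * f y * w (x - y)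

theorem isState_iff {N d : ℕ} (Ψ : (Fin N → Rd d) → ℂ) (G : Fin N → Fin d → (Fin N → Rd d) → ℂ) :
    IsState Ψ G ↔ Pool.Agent.W564.MY.InS Ψ G :=
  ⟨fun h => ⟨⟨h.memLp, h.gradMemLp, h.grad⟩, h.antisymm, h.normalised⟩,
    fun h => ⟨h.h1.1, h.h1.2.1, h.h1.2.2, h.anti, h.norm⟩⟩

theorem isDensityOf_iff {N d : ℕ} (Ψ : (Fin N → Rd d) → ℂ) (ρ : Rd d → ℝ) :
    IsDensityOf N Ψ ρ ↔ Pool.Agent.W564.MY.IsDensity N Ψ ρ := by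
  cases N with
  | zero => exact Iff.rfl
  | succ n => exact Iff.rfl

theorem levyLieb_eq (d N : ℕ) (h lam : ℝ) (V w f : Rd d → ℝ) :
    levyLieb d N h lam V w f = Pool.Agent.W564.MY.LL d N h lam V w f :=
  iInf_congr fun Ψ => iInf_congr fun G => iInf_congr_Prop (isState_iff Ψ G) fun _ =>
    iInf_congr_Prop (isDensityOf_iff Ψ _) fun _ => rfl

/-- Under the hypotheses of `result` all the integrals in the definitions of `levyLieb` and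
`thomasFermi` converge absolutely (so that no default value of an integral is ever used). -/
theorem integrals_converge (d : ℕ) (hd : 1 ≤ d) (V w : Rd d → ℝ)
    (hV : InLpSum (1 + (d : ℝ) / 2) V) (hw : InLpSum (1 + (d : ℝ) / 2) w)
    (χ : ℝ → Rd d → ℝ) (hχ : Measurable fun p : ℝ × Rd d => χ p.1 p.2)
    (hχ0 : ∀ r x, 0 ≤ χ r x) (hχeven : ∀ r x, χ r (-x) = χ r x)
    (hwχ : ∀ᵐ x, 0 ≤ w x ∧ ENNReal.ofReal (w x) =
      ∫⁻ r in Set.Ioi (0 : ℝ), ∫⁻ y, ENNReal.ofReal (χ r y * χ r (x - y)))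
    (f : Rd d → ℝ) (hf0 : ∀ᵐ x, 0 ≤ f x) (hf1 : ∫ x, f x = 1)
    (hfH : InH1 fun x => ((Real.sqrt (f x) : ℝ) : ℂ)) :
    (Integrable fun x => f x ^ (1 + 2 / (d : ℝ))) ∧ (Integrable fun x => V x * f x) ∧
    (∫⁻ x, ∫⁻ y, ENNReal.ofReal (f x * f y * w (x - y)) < ∞) ∧
    ∀ (N : ℕ) (Ψ : (Fin N → Rd d) → ℂ) (G : Fin N → Fin d → (Fin N → Rd d) → ℂ), IsState Ψ G →
      IsDensityOf N Ψ (fun x => N * f x) → ∀ i : Fin N,
        Integrable fun x : Fin N → Rd d => V (x i) * ‖Ψ x‖ ^ 2 := by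
  have D := Pool.Agent.W564.MY.Dat'.mk (d := d) (V := V) (w := w) (f := f) (χ := χ) hd hV hw hχ
    hχ0 hχeven hwχ hf0 hf1 hfH
  exact ⟨D.conv.1, D.conv.2.1, D.conv.2.2.1, fun N Ψ G hS hden i =>
    D.conv.2.2.2 N Ψ G ((isState_iff Ψ G).1 hS) ((isDensityOf_iff Ψ _).1 hden) i⟩

/-- **Full positive answer to Q1 for every `d ≥ 1`**: `𝓔_N(f) → 𝓔^TF(f)`. -/
theorem result (d : ℕ) (hd : 1 ≤ d) (V w : Rd d → ℝ)
    (hV : InLpSum (1 + (d : ℝ) / 2) V) (hw : InLpSum (1 + (d : ℝ) / 2) w)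
    -- `w(x) = ∫₀^∞ (χ_r * χ_r)(x) dr` with even `χ_r ≥ 0`
    (χ : ℝ → Rd d → ℝ) (hχ : Measurable fun p : ℝ × Rd d => χ p.1 p.2)
    (hχ0 : ∀ r x, 0 ≤ χ r x) (hχeven : ∀ r x, χ r (-x) = χ r x)
    (hwχ : ∀ᵐ x, 0 ≤ w x ∧ ENNReal.ofReal (w x) =
      ∫⁻ r in Set.Ioi (0 : ℝ), ∫⁻ y, ENNReal.ofReal (χ r y * χ r (x - y)))
    -- `f ≥ 0`, `∫ f = 1`, `√f ∈ H¹`
    (f : Rd d → ℝ) (hf0 : ∀ᵐ x, 0 ≤ f x) (hf1 : ∫ x, f x = 1)
    (hfH : InH1 fun x => ((Real.sqrt (f x) : ℝ) : ℂ))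
    -- `h_N N^{1/d} → 1`, `λ_N N → 1`
    (h lam : ℕ → ℝ) (hh : Tendsto (fun N : ℕ => h N * (N : ℝ) ^ (1 / (d : ℝ))) atTop (𝓝 1))
    (hlam : Tendsto (fun N : ℕ => lam N * N) atTop (𝓝 1)) :
    Tendsto (fun N : ℕ => levyLieb d N (h N) (lam N) V w f) atTop
      (𝓝 ((thomasFermi d V w f : ℝ) : EReal)) := by
  simp_rw [levyLieb_eq]
  exact (Pool.Agent.W564.MY.Dat'.mk (d := d) (V := V) (w := w) (f := f) (χ := χ) hd hV hw hχ hχ0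
    hχeven hwχ hf0 hf1 hfH).limit hh hlam

end Pool.Agent.Results.MP_2a55aa_mp.LevyLiebThomasFermiLimit
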